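import Mathlib

/-!
# Most vectors in a box have at least one eighth of large entries
-/

set_option autoImplicit false

open scoped BigOperators
open Finset

namespace Pool.Agent.Helper86.RM

/-- the number of the entries `≥ M / 2` -/
def big {h : ℕ} (M : ℕ) (w : Fin h → ℕ) : ℕ := (univ.filter fun i => M ≤ 2 * w i).card

theorem sum_half (M : ℕ) :
    ∑ x : Fin (M + 1), (if M ≤ 2 * (x : ℕ) then (1 / 16 : ℝ) else 1) ≤ 17 / 32 * (M + 1) := by
  have h1 : ∑ x : Fin (M + 1), (if M ≤ 2 * (x : ℕ) then (1 / 16 : ℝ) else 1) =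
      ∑ x : Fin (M + 1), (if M ≤ 2 * ((Fin.rev x : Fin (M + 1)) : ℕ) then (1 / 16 : ℝ) else 1) :=
    (Equiv.sum_comp Fin.revPerm
      (fun x : Fin (M + 1) => if M ≤ 2 * (x : ℕ) then (1 / 16 : ℝ) else 1)).symm
  have h2 : ∀ x : Fin (M + 1), (if M ≤ 2 * (x : ℕ) then (1 / 16 : ℝ) else 1) +
      (if M ≤ 2 * ((Fin.rev x : Fin (M + 1)) : ℕ) then (1 / 16 : ℝ) else 1) ≤ 17 / 16 := by
    intro x
    have hx := x.isLt
    rw [Fin.val_rev]
    by_cases h3 : M ≤ 2 * (x : ℕ)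
    · rw [if_pos h3]
      split_ifs <;> norm_num
    · rw [if_neg h3, if_pos (by omega)]
      norm_num
  have h3 := Finset.sum_le_sum fun x (_ : x ∈ (univ : Finset (Fin (M + 1)))) => h2 x
  rw [Finset.sum_add_distrib, ← h1] at h3
  simp only [sum_const, card_univ, Fintype.card_fin, nsmul_eq_mul] at h3
  push_cast at h3
  linarith

theorem count_real (h M : ℕ) :
    ((univ.filter fun w : Fin h → Fin (M + 1) => 8 * big M (fun i => (w i : ℕ)) < h).card : ℝ) ≤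
      (4 / 5) ^ h * ((M : ℝ) + 1) ^ h := by
  have h1 : ∑ w : Fin h → Fin (M + 1), ∏ i, (if M ≤ 2 * (w i : ℕ) then (1 / 16 : ℝ) else 1) =
      (∑ x : Fin (M + 1), (if M ≤ 2 * (x : ℕ) then (1 / 16 : ℝ) else 1)) ^ h :=
    (Fintype.sum_pow (fun x : Fin (M + 1) => if M ≤ 2 * (x : ℕ) then (1 / 16 : ℝ) else 1) h).symm
  have h2 : ∀ w : Fin h → Fin (M + 1),
      ∏ i, (if M ≤ 2 * (w i : ℕ) then (1 / 16 : ℝ) else 1) =
        (1 / 16) ^ big M (fun i => (w i : ℕ)) := by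
    intro w
    rw [Finset.prod_ite, prod_const, prod_const_one, mul_one]
    rfl
  have h3 : (∑ x : Fin (M + 1), (if M ≤ 2 * (x : ℕ) then (1 / 16 : ℝ) else 1)) ^ h ≤
      (17 / 32 * ((M : ℝ) + 1)) ^ h := by
    apply pow_le_pow_left₀ _ (sum_half M)
    apply Finset.sum_nonneg
    intro x _
    split_ifs <;> norm_num
  have h4 : ((univ.filter fun w : Fin h → Fin (M + 1) =>
      8 * big M (fun i => (w i : ℕ)) < h).card : ℝ) * (2 / 3) ^ h ≤
      ∑ w : Fin h → Fin (M + 1), (1 / 16 : ℝ) ^ big M (fun i => (w i : ℕ)) := by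
    rw [← nsmul_eq_mul, ← Finset.sum_const]
    refine le_trans (Finset.sum_le_sum (g := fun w : Fin h → Fin (M + 1) =>
      (1 / 16 : ℝ) ^ big M (fun i => (w i : ℕ))) ?_) ?_
    · intro w hw
      have h5 := (mem_filter.1 hw).2
      calc (2 / 3 : ℝ) ^ h ≤ (2 / 3 : ℝ) ^ (8 * big M (fun i => (w i : ℕ))) :=
            pow_le_pow_of_le_one (by norm_num) (by norm_num) h5.le
        _ = ((2 / 3 : ℝ) ^ 8) ^ big M (fun i => (w i : ℕ)) := by rw [pow_mul]
        _ ≤ (1 / 16 : ℝ) ^ big M (fun i => (w i : ℕ)) :=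
            pow_le_pow_left₀ (by norm_num) (by norm_num) _
    · exact Finset.sum_le_sum_of_subset_of_nonneg (filter_subset _ _)
        (fun w _ _ => by positivity)
  have h6 : ((univ.filter fun w : Fin h → Fin (M + 1) =>
      8 * big M (fun i => (w i : ℕ)) < h).card : ℝ) * (2 / 3) ^ h ≤
        (17 / 32 * ((M : ℝ) + 1)) ^ h := by
    refine h4.trans ?_
    rw [← Finset.sum_congr rfl (fun w _ => h2 w), h1]
    exact h3
  have h7 : (0 : ℝ) < (2 / 3) ^ h := by positivity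
  rw [← le_div_iff₀ h7] at h6
  refine h6.trans ?_
  rw [← div_pow, ← mul_pow]
  apply pow_le_pow_left₀ (by positivity)
  have hM : (0 : ℝ) ≤ M := Nat.cast_nonneg M
  rw [div_le_iff₀ (by norm_num)]
  nlinarith

theorem sum_of_big {h : ℕ} (M : ℕ) (w : Fin h → ℕ) (hb : h ≤ 8 * big M w) :
    h * M ≤ 16 * ∑ i, w i := by
  have h1 : ∑ i ∈ univ.filter (fun i => M ≤ 2 * w i), M ≤
      ∑ i ∈ univ.filter (fun i => M ≤ 2 * w i), 2 * w i :=
    Finset.sum_le_sum fun i hi => (mem_filter.1 hi).2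
  have h2 : ∑ i ∈ univ.filter (fun i => M ≤ 2 * w i), 2 * w i ≤ ∑ i, 2 * w i :=
    Finset.sum_le_sum_of_subset (filter_subset _ _)
  rw [sum_const, smul_eq_mul] at h1
  rw [← mul_sum univ] at h2
  have h3 : h * M ≤ 8 * big M w * M := Nat.mul_le_mul_right _ hb
  have h4 : big M w * M ≤ 2 * ∑ i, w i := h1.trans h2
  nlinarith

theorem sq_of_big {h : ℕ} (M : ℕ) (w : Fin h → ℕ) (hb : h ≤ 8 * big M w) :
    h * M ^ 2 ≤ 32 * ∑ i, w i ^ 2 := by
  have h1 : ∑ i ∈ univ.filter (fun i => M ≤ 2 * w i), M ^ 2 ≤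
      ∑ i ∈ univ.filter (fun i => M ≤ 2 * w i), 4 * w i ^ 2 := by
    refine Finset.sum_le_sum fun i hi => ?_
    have h2 := (mem_filter.1 hi).2
    calc M ^ 2 ≤ (2 * w i) ^ 2 := Nat.pow_le_pow_left h2 2
      _ = 4 * w i ^ 2 := by ring
  have h2 : ∑ i ∈ univ.filter (fun i => M ≤ 2 * w i), 4 * w i ^ 2 ≤ ∑ i, 4 * w i ^ 2 :=
    Finset.sum_le_sum_of_subset (filter_subset _ _)
  rw [sum_const, smul_eq_mul] at h1
  rw [← mul_sum univ] at h2
  have h3 : h * M ^ 2 ≤ 8 * big M w * M ^ 2 := Nat.mul_le_mul_right _ hb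
  have h4 : big M w * M ^ 2 ≤ 4 * ∑ i, w i ^ 2 := h1.trans h2
  nlinarith

end Pool.Agent.Helper86.RM
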