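import Pool.Graph.R_seed8.R873.SB.Two

/-!
# Two large multiplicities: the double line through the two points
-/

set_option autoImplicit false

namespace Pool.Agent.Helper86.RM

open MvPolynomial Pool.Agent.TH167.SHDefs Pool.Agent.R873.SB

variable {K : Type} [Field K] {n : ℕ}

/-- the multiplicities lowered by two at `i` and `j` -/
def low (w : Fin n → ℕ) (i j : Fin n) : Fin n → ℕ := fun l => if l = i ∨ l = j then w l - 2 else w l

theorem low_lower {P : Fin n → Fin 2 → K} {i j : Fin n} (hP : P i ≠ P j) (w : Fin n → ℕ)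
    (hi : 2 ≤ w i) (hj : 2 ≤ w j) (d : ℕ) :
    Module.finrank K ↥(sys P d (low w i j)) ≤ Module.finrank K ↥(sys P (d + 2) w) := by
  classical
  have hfin : Module.Finite K ↥(sys P (d + 2) w) := by
    have hf : Module.Finite K ↥(homogeneousSubmodule (Fin 3) K (d + 2)) :=
      Module.Finite.iff_fg.2 (homogeneousSubmodule_fg _ _ _)
    exact Module.Finite.of_injective
      (Submodule.inclusion (inf_le_left : sys P (d + 2) w ≤
        homogeneousSubmodule (Fin 3) K (d + 2))) (Submodule.inclusion_injective _)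
  obtain ⟨L, hL⟩ : ∃ L, L = line (P i) (P j) := ⟨_, rfl⟩
  have hmem : ∀ f ∈ sys P d (low w i j), L ^ 2 * f ∈ sys P (d + 2) w := by
    intro f hf
    unfold sys at hf ⊢
    rw [Submodule.mem_inf, mem_homogeneousSubmodule, Submodule.restrictScalars_mem,
      Ideal.mem_iInf] at hf ⊢
    refine ⟨?_, fun l => ?_⟩
    · have h2 := ((line_hom (P i) (P j)).pow 2).mul hf.1
      rw [hL]
      convert h2 using 1
      ring
    · have h2 := hf.2 l
      unfold low at h2
      by_cases hl : l = i ∨ l = j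
      · rw [if_pos hl] at h2
        have h3 : L ∈ pt (P l) := by
          rcases hl with rfl | rfl
          · rw [hL]; exact line_left _ _
          · rw [hL]; exact line_right _ _
        have h4 : w l = 2 + (w l - 2) := by
          rcases hl with rfl | rfl <;> omega
        rw [h4, pow_add]
        exact Ideal.mul_mem_mul (Ideal.pow_mem_pow h3 2) h2
      · rw [if_neg hl] at h2
        exact Ideal.mul_mem_left _ _ h2
  let φ : ↥(sys P d (low w i j)) →ₗ[K] ↥(sys P (d + 2) w) :=
    { toFun := fun f => ⟨L ^ 2 * f.1, hmem f.1 f.2⟩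
      map_add' := fun f g => Subtype.ext (mul_add _ _ _)
      map_smul' := fun c f => Subtype.ext (by
        show L ^ 2 * (c • f.1) = c • (L ^ 2 * f.1)
        rw [mul_smul_comm]) }
  refine LinearMap.finrank_le_finrank_of_injective (f := φ) ?_
  intro f g h
  have h2 : L ^ 2 * f.1 = L ^ 2 * g.1 := congrArg Subtype.val h
  have h3 : L ^ 2 ≠ 0 := by
    rw [hL]
    exact pow_ne_zero _ (line_ne hP)
  exact Subtype.ext (mul_left_cancel₀ h3 h2)

theorem choose_id (a : ℕ) : 2 * ((a + 1).choose 2 : ℤ) = (a : ℤ) * (a + 1) := by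
  have h := two_choose a
  push_cast at h ⊢
  linarith

/-- Two multiplicities with a large product make the system special in degree `w i + w j - 2`. -/
theorem special_of_two {P : Fin n → Fin 2 → K} {i j : Fin n} (hP : P i ≠ P j) (w : Fin n → ℕ)
    (hi : 2 ≤ w i) (hj : 2 ≤ w j)
    (hs : ∑ l ∈ (Finset.univ.erase i).erase j, (w l + 1).choose 2 + 1 ≤ (w i - 1) * (w j - 1)) :
    Special P (w i + w j - 2) w := by
  classical
  have hij : i ≠ j := fun h => hP (by rw [h])
  obtain ⟨a, ha⟩ : ∃ a, w i = a + 2 := ⟨w i - 2, by omega⟩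
  obtain ⟨b, hb⟩ : ∃ b, w j = b + 2 := ⟨w j - 2, by omega⟩
  have hd : w i + w j - 2 = (a + b) + 2 := by omega
  rw [hd]
  set S := ∑ l ∈ (Finset.univ.erase i).erase j, (w l + 1).choose 2 with hS
  have hsplit : ∀ g : Fin n → ℕ, ∑ l, g l = g i + (g j + ∑ l ∈ (Finset.univ.erase i).erase j, g l) := by
    intro g
    rw [← Finset.add_sum_erase Finset.univ g (Finset.mem_univ i),
      ← Finset.add_sum_erase (Finset.univ.erase i) g
        (Finset.mem_erase.2 ⟨Ne.symm hij, Finset.mem_univ j⟩)]
  have h1 : ∑ l, (w l + 1).choose 2 = (a + 3).choose 2 + ((b + 3).choose 2 + S) := by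
    rw [hsplit, ha, hb]
  have h2 : ∑ l, (low w i j l + 1).choose 2 = (a + 1).choose 2 + ((b + 1).choose 2 + S) := by
    rw [hsplit]
    congr 1
    · simp [low, ha]
    congr 1
    · simp [low, hb]
    · refine Finset.sum_congr rfl fun l hl => ?_
      rw [Finset.mem_erase, Finset.mem_erase] at hl
      simp [low, hl.1, hl.2.1]
  have h3 := le_sys (low w i j) P (a + b)
  rw [h2] at h3
  have h4 := low_lower hP w hi hj (a + b)
  have hs' : S + 1 ≤ (a + 1) * (b + 1) := by
    have e1 : w i - 1 = a + 1 := by omega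
    have e2 : w j - 1 = b + 1 := by omega
    rw [e1, e2] at hs
    exact hs
  have c1 := choose_id (a + 2)
  have c2 := choose_id (b + 2)
  have c3 := choose_id a
  have c4 := choose_id b
  have c5 := choose_id (a + b + 1)
  have c6 := choose_id (a + b + 3)
  unfold Special dimL virtdim
  have h5 : ∑ l, ((w l + 1).choose 2 : ℤ) = ((∑ l, (w l + 1).choose 2 : ℕ) : ℤ) := by
    push_cast
    rfl
  rw [h5, h1]
  intro h6
  have h3' : (((a + b) + 2).choose 2 : ℤ) ≤
      (Module.finrank K ↥(sys P (a + b) (low w i j)) : ℤ) +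
        (((a + 1).choose 2 : ℤ) + (((b + 1).choose 2 : ℤ) + S)) := by exact_mod_cast h3
  have h4' : (Module.finrank K ↥(sys P (a + b) (low w i j)) : ℤ) ≤
      (Module.finrank K ↥(sys P (a + b + 2) w) : ℤ) := by exact_mod_cast h4
  have hs2 : (S : ℤ) + 1 ≤ ((a : ℤ) + 1) * (b + 1) := by exact_mod_cast hs'
  push_cast at c1 c2 c3 c4 c5 c6 h6 h3'
  have e1 : (a + 2 + 1).choose 2 = (a + 3).choose 2 := rfl
  have e2 : (b + 2 + 1).choose 2 = (b + 3).choose 2 := rfl
  have e3 : (a + b + 1 + 1).choose 2 = (a + b + 2).choose 2 := rfl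
  have e4 : (a + b + 3 + 1).choose 2 = (a + b + 2 + 2).choose 2 := rfl
  rw [e1] at c1
  rw [e2] at c2
  rw [e3] at c5
  rw [e4] at c6
  rcases max_choice (((a + b + 2 + 2).choose 2 : ℤ) - 1 -
    (((a + 3).choose 2 : ℤ) + (((b + 3).choose 2 : ℤ) + S))) (-1) with h | h
  · rw [h] at h6
    nlinarith
  · rw [h] at h6
    nlinarith

end Pool.Agent.Helper86.RM
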