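import Mathlib

/-!
# Laws with an almost finite second moment and two dominating values
-/

set_option autoImplicit false

open scoped BigOperators ENNReal
open Finset MeasureTheory ProbabilityTheory Filter

namespace Pool.Agent.Helper86.RM

/-- At the second arrival of a value `≥ v` the other values are at most `a`. -/
theorem arrival (x : ℕ → ℕ) (a v m : ℕ) (h1 : ∃ i, i < m ∧ v ≤ x i)
    (h2 : ∃ j, m ≤ j ∧ j < 2 * m ∧ v ≤ x j) (hlow : ∀ l, x l < v → x l ≤ a) :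
    ∃ i j : ℕ, i < j ∧ j < 2 * m ∧ v ≤ x i ∧ v ≤ x j ∧ ∀ l, l ≤ j → l ≠ i → l ≠ j → x l ≤ a := by
  classical
  obtain ⟨i0, hi0, hi0'⟩ := h1
  obtain ⟨j0, hj0, hj0', hj0''⟩ := h2
  have hex : ∃ j, ∃ i, i < j ∧ v ≤ x i ∧ v ≤ x j := ⟨j0, i0, by omega, hi0', hj0''⟩
  obtain ⟨i, hij, hi, hj⟩ := Nat.find_spec hex
  have hmin : Nat.find hex ≤ j0 := Nat.find_min' hex ⟨i0, by omega, hi0', hj0''⟩
  refine ⟨i, Nat.find hex, hij, by omega, hi, hj, fun l hl hli hlj => ?_⟩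
  apply hlow
  by_contra hcon
  push Not at hcon
  have hlt : l < Nat.find hex := lt_of_le_of_ne hl hlj
  rcases lt_or_gt_of_ne hli with h | h
  · exact Nat.find_min hex hij ⟨l, h, hcon, hi⟩
  · exact Nat.find_min hex hlt ⟨i, h, hi, hcon⟩

/-- the sequence of the values -/
theorem exists_seq (ψ : ℕ → ℝ) (hψ : Tendsto ψ atTop atTop) :
    ∃ v s : ℕ → ℕ, v 0 = 1 ∧ (∀ k, v (k + 1) = 2 * v k * s k) ∧ (∀ k, 2 ≤ s k) ∧
      (∀ k : ℕ, ((k : ℝ) + 1) * 2 ^ (k + 1) ≤ (s k : ℝ) ^ 2) ∧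
      ∀ k : ℕ, 4 * ((k : ℝ) + 1) * (v k : ℝ) ^ 2 * 2 ^ k ≤ ψ (v (k + 1)) := by
  have key : ∀ v k : ℕ, ∃ s : ℕ, 1 ≤ v → 2 ≤ s ∧ ((k : ℝ) + 1) * 2 ^ (k + 1) ≤ (s : ℝ) ^ 2 ∧
      4 * ((k : ℝ) + 1) * (v : ℝ) ^ 2 * 2 ^ k ≤ ψ (2 * v * s) := by
    intro v k
    by_cases hv : 1 ≤ v
    · obtain ⟨N, hN⟩ := (hψ.eventually_ge_atTop
        (4 * ((k : ℝ) + 1) * (v : ℝ) ^ 2 * 2 ^ k)).exists_forall_of_atTop
      obtain ⟨M, hM⟩ := exists_nat_ge (((k : ℝ) + 1) * 2 ^ (k + 1))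
      refine ⟨N + M + 2, fun _ => ⟨by omega, ?_, hN _ ?_⟩⟩
      · have h1 : (0 : ℝ) ≤ N := Nat.cast_nonneg N
        have h2 : (0 : ℝ) ≤ M := Nat.cast_nonneg M
        push_cast
        nlinarith
      · nlinarith
    · exact ⟨0, fun h => absurd h hv⟩
  choose S hS using key
  let v : ℕ → ℕ := fun k => Nat.rec 1 (fun k a => 2 * a * S a k) k
  have hv0 : v 0 = 1 := rfl
  have hvs : ∀ k, v (k + 1) = 2 * v k * S (v k) k := fun k => rfl
  have hv1 : ∀ k, 1 ≤ v k := by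
    intro k
    induction k with
    | zero => exact le_rfl
    | succ k ih =>
      rw [hvs]
      have h1 := (hS (v k) k ih).1
      nlinarith
  exact ⟨v, fun k => S (v k) k, hv0, hvs, fun k => (hS _ k (hv1 k)).1,
    fun k => (hS _ k (hv1 k)).2.1, fun k => (hS _ k (hv1 k)).2.2⟩

/-- the law: the value `v (k + 1)` with probability `(k + 1) / s k ^ 2`, otherwise the value `1` -/
noncomputable def law (v s : ℕ → ℕ) : Measure ℕ :=
  Measure.sum (fun k : ℕ => ENNReal.ofReal (((k : ℝ) + 1) / (s k : ℝ) ^ 2) • Measure.dirac (v (k + 1))) +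
    ENNReal.ofReal (1 - ∑' k : ℕ, ((k : ℝ) + 1) / (s k : ℝ) ^ 2) • Measure.dirac 1

section
variable {v s : ℕ → ℕ} (hv0 : v 0 = 1) (hvs : ∀ k, v (k + 1) = 2 * v k * s k) (hs2 : ∀ k, 2 ≤ s k)
  (hsk : ∀ k : ℕ, ((k : ℝ) + 1) * 2 ^ (k + 1) ≤ (s k : ℝ) ^ 2)

include hs2 hsk in
theorem p_le (k : ℕ) : ((k : ℝ) + 1) / (s k : ℝ) ^ 2 ≤ 1 / 2 / 2 ^ k := by
  have h1 : (0 : ℝ) < (s k : ℝ) ^ 2 := by
    have : (0 : ℝ) < s k := by
      have := hs2 k
      exact_mod_cast (by omega : 0 < s k)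
    positivity
  rw [div_div, div_le_div_iff₀ h1 (by positivity), one_mul]
  have h2 := hsk k
  rw [pow_succ] at h2
  linarith

include hs2 hsk in
theorem summable_p : Summable fun k : ℕ => ((k : ℝ) + 1) / (s k : ℝ) ^ 2 := by
  refine Summable.of_nonneg_of_le (fun k => by positivity) (p_le hs2 hsk) ?_
  exact summable_geometric_two' (1 : ℝ)

include hs2 hsk in
theorem tsum_p_le : ∑' k : ℕ, ((k : ℝ) + 1) / (s k : ℝ) ^ 2 ≤ 1 := by
  have h1 := (summable_p hs2 hsk).tsum_le_tsum (p_le hs2 hsk) (summable_geometric_two' (1 : ℝ))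
  rwa [tsum_geometric_two'] at h1

include hs2 hsk in
theorem law_prob : IsProbabilityMeasure (law v s) := by
  refine ⟨?_⟩
  unfold law
  rw [Measure.add_apply, Measure.sum_apply _ MeasurableSet.univ, Measure.smul_apply]
  simp only [Measure.smul_apply, measure_univ, smul_eq_mul, mul_one]
  rw [← ENNReal.ofReal_tsum_of_nonneg (fun k => by positivity) (summable_p hs2 hsk),
    ← ENNReal.ofReal_add (tsum_nonneg fun k => by positivity)
      (sub_nonneg.2 (tsum_p_le hs2 hsk))]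
  simp

/-- the mass of the large values -/
theorem law_ge (k : ℕ) : ENNReal.ofReal (((k : ℝ) + 1) / (s k : ℝ) ^ 2) ≤
    law v s {x | v (k + 1) ≤ x} := by
  unfold law
  rw [Measure.add_apply, Measure.sum_apply _ (MeasurableSet.of_discrete)]
  refine le_trans ?_ le_self_add
  refine le_trans ?_ (ENNReal.le_tsum k)
  rw [Measure.smul_apply, Measure.dirac_apply' _ (MeasurableSet.of_discrete)]
  simp

include hv0 in
/-- the values -/
theorem law_range : law v s (Set.range v)ᶜ = 0 := by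
  unfold law
  rw [Measure.add_apply, Measure.sum_apply _ (MeasurableSet.of_discrete), Measure.smul_apply]
  have h1 : ∀ k : ℕ, (ENNReal.ofReal (((k : ℝ) + 1) / (s k : ℝ) ^ 2) • Measure.dirac (v (k + 1)))
      (Set.range v)ᶜ = 0 := by
    intro k
    rw [Measure.smul_apply, Measure.dirac_apply' _ (MeasurableSet.of_discrete)]
    simp
  rw [ENNReal.tsum_eq_zero.2 h1, Measure.dirac_apply' _ (MeasurableSet.of_discrete)]
  have h2 : (1 : ℕ) ∈ Set.range v := ⟨0, hv0⟩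
  simp [h2]

include hs2 hvs in
/-- the moments -/
theorem law_moment (ψ : ℕ → ℝ) (hψ0 : ∀ k, 0 < ψ k)
    (hψ : ∀ k : ℕ, 4 * ((k : ℝ) + 1) * (v k : ℝ) ^ 2 * 2 ^ k ≤ ψ (v (k + 1))) :
    ∫⁻ x, ENNReal.ofReal ((x : ℝ) ^ 2 / ψ x) ∂(law v s) < ⊤ := by
  unfold law
  rw [lintegral_add_measure, lintegral_sum_measure]
  refine ENNReal.add_lt_top.2 ⟨?_, ?_⟩
  · have h1 : ∀ k : ℕ, ∫⁻ x, ENNReal.ofReal ((x : ℝ) ^ 2 / ψ x)
        ∂(ENNReal.ofReal (((k : ℝ) + 1) / (s k : ℝ) ^ 2) • Measure.dirac (v (k + 1))) ≤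
        ENNReal.ofReal (2 / 2 / 2 ^ k) := by
      intro k
      rw [lintegral_smul_measure, lintegral_dirac, smul_eq_mul,
        ← ENNReal.ofReal_mul (by positivity)]
      apply ENNReal.ofReal_le_ofReal
      have hs0 : (0 : ℝ) < s k := by
        have := hs2 k
        exact_mod_cast (by omega : 0 < s k)
      have h2 := hψ k
      have h3 := hψ0 (v (k + 1))
      have h4 : ((v (k + 1) : ℕ) : ℝ) = 2 * v k * s k := by
        rw [hvs k]
        push_cast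
        ring
      rw [div_mul_div_comm, div_div, div_le_div_iff₀ (by positivity) (by positivity), h4]
      have h5 : ((k : ℝ) + 1) * (2 * v k * s k) ^ 2 * (2 * 2 ^ k) =
          2 * ((s k : ℝ) ^ 2 * (4 * ((k : ℝ) + 1) * (v k : ℝ) ^ 2 * 2 ^ k)) := by ring
      rw [h5]
      have h6 : (s k : ℝ) ^ 2 * (4 * ((k : ℝ) + 1) * (v k : ℝ) ^ 2 * 2 ^ k) ≤
          (s k : ℝ) ^ 2 * ψ (2 * v k * s k) := by
        apply mul_le_mul_of_nonneg_left _ (by positivity)
        rw [hvs k] at h2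
        exact h2
      rw [hvs k]
      linarith
    refine lt_of_le_of_lt (ENNReal.tsum_le_tsum h1) ?_
    rw [← ENNReal.ofReal_tsum_of_nonneg (fun k => by positivity) (summable_geometric_two' (2 : ℝ))]
    exact ENNReal.ofReal_lt_top
  · rw [lintegral_smul_measure, lintegral_dirac, smul_eq_mul]
    exact ENNReal.mul_lt_top ENNReal.ofReal_lt_top ENNReal.ofReal_lt_top

theorem choose_le_sq {x a : ℕ} (h : x ≤ a) : (x + 1).choose 2 ≤ a ^ 2 := by
  rw [Nat.choose_two_right, Nat.add_sub_cancel]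
  apply Nat.div_le_of_le_mul
  rcases Nat.eq_zero_or_pos x with rfl | hx
  · simp
  · nlinarith

include hs2 hsk in
theorem law_lt_pow (k : ℕ) :
    (law v s {x | x < v (k + 1)}) ^ (s k ^ 2) ≤ ENNReal.ofReal (1 / 2 / 2 ^ k) := by
  have := law_prob (v := v) hs2 hsk
  have h1 : law v s {x | x < v (k + 1)} =
      1 - law v s {x | v (k + 1) ≤ x} := by
    have h2 : {x | x < v (k + 1)} = {x | v (k + 1) ≤ x}ᶜ := by
      ext x
      simp
    rw [h2, prob_compl_eq_one_sub (MeasurableSet.of_discrete)]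
  have hs0 : (0 : ℝ) < s k := by
    have := hs2 k
    exact_mod_cast (by omega : 0 < s k)
  have hp0 : (0 : ℝ) ≤ ((k : ℝ) + 1) / (s k : ℝ) ^ 2 := by positivity
  have hp1 : ((k : ℝ) + 1) / (s k : ℝ) ^ 2 ≤ 1 := by
    refine (p_le hs2 hsk k).trans ?_
    rw [div_div, div_le_one (by positivity)]
    have : (1 : ℝ) ≤ 2 ^ k := one_le_pow₀ (by norm_num)
    linarith
  have h2 : law v s {x | x < v (k + 1)} ≤
      ENNReal.ofReal (1 - ((k : ℝ) + 1) / (s k : ℝ) ^ 2) := by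
    rw [h1, ENNReal.ofReal_sub _ hp0, ENNReal.ofReal_one]
    exact tsub_le_tsub_left (law_ge k) _
  refine (pow_le_pow_left₀ (zero_le) h2 _).trans ?_
  rw [← ENNReal.ofReal_pow (by linarith)]
  apply ENNReal.ofReal_le_ofReal
  have h3 : 1 - ((k : ℝ) + 1) / (s k : ℝ) ^ 2 ≤ Real.exp (-(((k : ℝ) + 1) / (s k : ℝ) ^ 2)) :=
    Real.one_sub_le_exp_neg _
  refine (pow_le_pow_left₀ (by linarith) h3 _).trans ?_
  rw [← Real.exp_nat_mul]
  have h4 : ((s k ^ 2 : ℕ) : ℝ) * -(((k : ℝ) + 1) / (s k : ℝ) ^ 2) = ((k + 1 : ℕ) : ℝ) * (-1) := by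
    push_cast
    field_simp
  rw [h4, Real.exp_nat_mul]
  have h5 : Real.exp (-1) ≤ 1 / 2 := by
    rw [Real.exp_neg, one_div]
    apply inv_anti₀ (by norm_num)
    have := Real.add_one_le_exp (1 : ℝ)
    linarith
  refine (pow_le_pow_left₀ (Real.exp_pos _).le h5 _).trans ?_
  rw [pow_succ, one_div_pow]
  apply le_of_eq
  ring

include hv0 hvs hs2 hsk in
theorem often {Ω : Type} [MeasurableSpace Ω] (μ : Measure Ω) [IsProbabilityMeasure μ]
    (X : ℕ → Ω → ℕ) (hX : ∀ i, Measurable (X i)) (hind : iIndepFun X μ)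
    (hlaw : ∀ i, μ.map (X i) = law v s) :
    ∀ᵐ ω ∂μ, ∀ N : ℕ, ∃ n i j : ℕ, N ≤ n ∧ i < j ∧ j < n ∧ 2 ≤ X i ω ∧ 2 ≤ X j ω ∧
      ∑ l ∈ ((range n).erase i).erase j, (X l ω + 1).choose 2 + 1 ≤ (X i ω - 1) * (X j ω - 1) := by
  classical
  have hv1 : ∀ k, 1 ≤ v k := by
    intro k
    induction k with
    | zero => rw [hv0]
    | succ k ih =>
      rw [hvs]
      have h1 := hs2 k
      nlinarith
  have hmono : StrictMono v := by
    apply strictMono_nat_of_lt_succ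
    intro k
    rw [hvs]
    have h1 := hs2 k
    have h2 := hv1 k
    nlinarith
  -- no arrival in a block
  have hblock : ∀ (k : ℕ) (S : Finset ℕ), S.card = s k ^ 2 →
      μ (⋂ i ∈ S, X i ⁻¹' {x | x < v (k + 1)}) ≤ ENNReal.ofReal (1 / 2 / 2 ^ k) := by
    intro k S hS
    rw [hind.measure_inter_preimage_eq_mul S (fun i _ => MeasurableSet.of_discrete)]
    have h1 : ∀ i ∈ S, μ (X i ⁻¹' {x | x < v (k + 1)}) = law v s {x | x < v (k + 1)} := by
      intro i _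
      rw [← hlaw i, Measure.map_apply (hX i) (MeasurableSet.of_discrete)]
    rw [Finset.prod_congr rfl h1, Finset.prod_const, hS]
    exact law_lt_pow hs2 hsk k
  have hsum : (∑' k : ℕ, ENNReal.ofReal (1 / 2 / 2 ^ k)) ≠ ⊤ := by
    rw [← ENNReal.ofReal_tsum_of_nonneg (fun k => by positivity) (summable_geometric_two' (1 : ℝ))]
    exact ENNReal.ofReal_ne_top
  have e1 : ∀ᵐ ω ∂μ, ∀ᶠ k in atTop, ω ∉ ⋂ i ∈ range (s k ^ 2), X i ⁻¹' {x | x < v (k + 1)} := by
    apply ae_eventually_notMem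
    exact ne_top_of_le_ne_top hsum (ENNReal.tsum_le_tsum fun k => hblock k _ (card_range _))
  have e2 : ∀ᵐ ω ∂μ, ∀ᶠ k in atTop,
      ω ∉ ⋂ i ∈ Finset.Ico (s k ^ 2) (2 * s k ^ 2), X i ⁻¹' {x | x < v (k + 1)} := by
    apply ae_eventually_notMem
    refine ne_top_of_le_ne_top hsum (ENNReal.tsum_le_tsum fun k => hblock k _ ?_)
    rw [Nat.card_Ico]
    omega
  have e3 : ∀ᵐ ω ∂μ, ∀ l, X l ω ∈ Set.range v := by
    rw [ae_all_iff]
    intro l
    have h1 : μ (X l ⁻¹' (Set.range v)ᶜ) = 0 := by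
      rw [← Measure.map_apply (hX l) (MeasurableSet.of_discrete), hlaw l]
      exact law_range hv0
    filter_upwards [measure_eq_zero_iff_ae_notMem.1 h1] with ω hω
    simpa using hω
  filter_upwards [e1, e2, e3] with ω h1 h2 h3 N
  obtain ⟨K1, hK1⟩ := h1.exists_forall_of_atTop
  obtain ⟨K2, hK2⟩ := h2.exists_forall_of_atTop
  obtain ⟨B, hB⟩ : ∃ B, ∀ l, l < N → X l ω ≤ B :=
    ⟨(range N).sup fun l => X l ω, fun l hl => Finset.le_sup (f := fun l => X l ω) (mem_range.2 hl)⟩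
  set k := K1 + K2 + B with hk
  have hvk : B < v (k + 1) := lt_of_lt_of_le (show B < k + 1 by omega) (hmono.id_le (k + 1))
  have a1 := hK1 k (by omega)
  have a2 := hK2 k (by omega)
  simp only [Set.mem_iInter, not_forall, mem_range, Finset.mem_Ico] at a1 a2
  obtain ⟨i0, hi0, hi0'⟩ := a1
  obtain ⟨j0, hj0, hj0'⟩ := a2
  have hi0'' : v (k + 1) ≤ X i0 ω := not_lt.1 hi0'
  have hj0'' : v (k + 1) ≤ X j0 ω := not_lt.1 hj0'
  obtain ⟨i, j, hij, hj, hi', hj', hall⟩ := arrival (fun l => X l ω) (v k) (v (k + 1)) (s k ^ 2)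
    ⟨i0, hi0, hi0''⟩ ⟨j0, hj0.1, hj0.2, hj0''⟩ (by
      intro l hl
      obtain ⟨t, ht⟩ := h3 l
      have hl' : v t < v (k + 1) := by
        rw [ht]
        exact hl
      have ht2 : t ≤ k := Nat.lt_succ_iff.1 (hmono.lt_iff_lt.1 hl')
      show X l ω ≤ v k
      rw [← ht]
      exact hmono.monotone ht2)
  have hjN : N ≤ j := by
    by_contra hcon
    push Not at hcon
    have := hB j hcon
    omega
  have hk2 := hs2 k
  have hvk1 := hv1 k
  have hvk4 : 4 ≤ v (k + 1) := by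
    rw [hvs]
    nlinarith
  refine ⟨j + 1, i, j, by omega, hij, by omega, by omega, by omega, ?_⟩
  have b1 : ∑ l ∈ ((range (j + 1)).erase i).erase j, (X l ω + 1).choose 2 ≤
      ∑ l ∈ ((range (j + 1)).erase i).erase j, (v k) ^ 2 := by
    refine Finset.sum_le_sum fun l hl => ?_
    rw [Finset.mem_erase, Finset.mem_erase, mem_range] at hl
    exact choose_le_sq (hall l (by omega) hl.2.1 hl.1)
  have b2 : (((range (j + 1)).erase i).erase j).card ≤ 2 * s k ^ 2 := by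
    refine (Finset.card_le_card ((Finset.erase_subset _ _).trans (Finset.erase_subset _ _))).trans ?_
    rw [card_range]
    omega
  rw [Finset.sum_const, smul_eq_mul] at b1
  have b3 : (((range (j + 1)).erase i).erase j).card * (v k) ^ 2 ≤ 2 * s k ^ 2 * (v k) ^ 2 :=
    Nat.mul_le_mul_right _ b2
  have b4 : 2 * s k ^ 2 * (v k) ^ 2 + 1 ≤ (v (k + 1) - 1) * (v (k + 1) - 1) := by
    obtain ⟨t, ht⟩ : ∃ t, v (k + 1) = t + 1 := ⟨v (k + 1) - 1, by omega⟩
    rw [ht, Nat.add_sub_cancel]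
    have ht2 : t + 1 = 2 * v k * s k := by rw [← ht, hvs]
    have h5 : 2 ≤ v k * s k := by nlinarith
    nlinarith
  have b5 : (v (k + 1) - 1) * (v (k + 1) - 1) ≤ (X i ω - 1) * (X j ω - 1) := by
    apply Nat.mul_le_mul
    · have : v (k + 1) ≤ X i ω := hi'
      omega
    · have : v (k + 1) ≤ X j ω := hj'
      omega
  omega

end

end Pool.Agent.Helper86.RM
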