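import Mathlib

/-!
# Sums and maxima of random variables with a finite second moment
-/

set_option autoImplicit false

open scoped BigOperators
open Finset MeasureTheory ProbabilityTheory Filter

namespace Pool.Agent.Helper86.RM

/-- a deterministic statement on sequences -/
theorem eventually_large (x : ℕ → ℝ) (m : ℝ) (hm : 0 < m)
    (h1 : ∀ᶠ n : ℕ in atTop, m * n ≤ ∑ i ∈ range n, x i)
    (h3 : Tendsto (fun n : ℕ => x n ^ 2 / (n : ℝ)) atTop (nhds 0)) :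
    ∃ N : ℕ, ∀ n, N ≤ n → ∃ μ : ℕ, (∀ i, i < n → x i ≤ μ) ∧
      25000 * ((μ : ℝ) + 1) ^ 2 ≤ ∑ i ∈ range n, x i := by
  set ε : ℝ := m / 400000 with hε
  have hε0 : 0 < ε := by positivity
  obtain ⟨N1, hN1⟩ := (h3.eventually (gt_mem_nhds hε0)).exists_forall_of_atTop
  obtain ⟨N2, hN2⟩ := h1.exists_forall_of_atTop
  -- the first values
  set K : ℝ := ∑ i ∈ range (N1 + 1), x i ^ 2 with hK
  have hK0 : 0 ≤ K := Finset.sum_nonneg fun i _ => sq_nonneg _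
  obtain ⟨N3, hN3⟩ := exists_nat_ge (K / ε)
  obtain ⟨N4, hN4⟩ := exists_nat_ge (800000 / m)
  refine ⟨max (max (N1 + 1) (N2 + 1)) (max N3 N4), fun n hn => ?_⟩
  have hnN1 : N1 + 1 ≤ n := le_trans (le_trans (le_max_left _ _) (le_max_left _ _)) hn
  have hnN2 : N2 + 1 ≤ n := le_trans (le_trans (le_max_right _ _) (le_max_left _ _)) hn
  have hnN3 : N3 ≤ n := le_trans (le_trans (le_max_left _ _) (le_max_right _ _)) hn
  have hnN4 : N4 ≤ n := le_trans (le_trans (le_max_right _ _) (le_max_right _ _)) hn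
  have hn0 : (0 : ℝ) < n := by
    have : 0 < n := by omega
    exact_mod_cast this
  have hxn : ∀ i, i < n → x i ^ 2 ≤ ε * n := by
    intro i hi
    by_cases hi1 : N1 + 1 ≤ i
    · have e1 := hN1 i (by omega)
      have hi0 : (0 : ℝ) < i := by
        have : 0 < i := by omega
        exact_mod_cast this
      rw [div_lt_iff₀ hi0] at e1
      have hin : (i : ℝ) ≤ n := by exact_mod_cast hi.le
      nlinarith
    · have e1 : x i ^ 2 ≤ K :=
        Finset.single_le_sum (f := fun i => x i ^ 2) (fun j _ => sq_nonneg _)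
          (mem_range.2 (by omega))
      have e2 : K ≤ ε * n := by
        have e3 : K / ε ≤ n := hN3.trans (by exact_mod_cast hnN3)
        rw [div_le_iff₀ hε0] at e3
        linarith
      exact e1.trans e2
  refine ⟨⌊√(ε * n)⌋₊ + 1, ?_, ?_⟩
  · intro i hi
    have e1 : x i ≤ √(ε * n) := Real.le_sqrt_of_sq_le (hxn i hi)
    push_cast
    exact e1.trans (Nat.lt_floor_add_one _).le
  · have e1 : ((⌊√(ε * n)⌋₊ : ℕ) : ℝ) ≤ √(ε * n) := Nat.floor_le (Real.sqrt_nonneg _)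
    have e2 : √(ε * n) ^ 2 = ε * n := Real.sq_sqrt (by positivity)
    have e3 := hN2 n (by omega)
    have e4 : (800000 : ℝ) ≤ m * n := by
      have e5 : 800000 / m ≤ n := hN4.trans (by exact_mod_cast hnN4)
      rw [div_le_iff₀ hm] at e5
      linarith
    have e6 : (((⌊√(ε * n)⌋₊ + 1 : ℕ) : ℝ) + 1) ^ 2 ≤ 2 * (ε * n) + 8 := by
      push_cast
      have e7 : (0 : ℝ) ≤ ((⌊√(ε * n)⌋₊ : ℕ) : ℝ) := Nat.cast_nonneg _
      have e8 : 0 ≤ √(ε * n) := Real.sqrt_nonneg _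
      nlinarith [sq_nonneg (√(ε * n) - 2)]
    have e9 : 2 * (ε * n) = m * n / 200000 := by
      rw [hε]
      ring
    rw [e9] at e6
    linarith

/-- Identically distributed variables with a finite second moment, of any dependence. -/
theorem sq_div {Ω : Type} [MeasurableSpace Ω] (μ : Measure Ω) [IsProbabilityMeasure μ]
    (X : ℕ → Ω → ℕ) (hX : ∀ i, Measurable (X i))
    (hid : ∀ i, IdentDistrib (X i) (X 0) μ μ)
    (hint : Integrable (fun ω => (X 0 ω : ℝ) ^ 2) μ) :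
    ∀ᵐ ω ∂μ, Tendsto (fun n : ℕ => (X n ω : ℝ) ^ 2 / (n : ℝ)) atTop (nhds 0) := by
  have hm2 : Measurable (fun k : ℕ => (k : ℝ) ^ 2) := measurable_from_top
  have key : ∀ k : ℕ, ∀ᵐ ω ∂μ, ∀ᶠ n : ℕ in atTop, (k + 1 : ℝ) * (X n ω : ℝ) ^ 2 ≤ n := by
    intro k
    have h1 : Integrable (fun ω => (k + 1 : ℝ) * (X 0 ω : ℝ) ^ 2) μ := hint.const_mul _
    letI : MeasureSpace Ω := ⟨μ⟩
    have h2 : (∑' j : ℕ, μ {ω | (k + 1 : ℝ) * (X 0 ω : ℝ) ^ 2 ∈ Set.Ioi (j : ℝ)}) < ⊤ :=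
      tsum_prob_mem_Ioi_lt_top (Ω := Ω) (X := fun ω => (k + 1 : ℝ) * (X 0 ω : ℝ) ^ 2) h1
        (fun ω => by
          show (0 : ℝ) ≤ (k + 1 : ℝ) * (X 0 ω : ℝ) ^ 2
          positivity)
    have h3 : (∑' j : ℕ, μ {ω | (k + 1 : ℝ) * (X j ω : ℝ) ^ 2 ∈ Set.Ioi (j : ℝ)}) < ⊤ := by
      refine lt_of_le_of_lt (le_of_eq ?_) h2
      congr 1
      funext j
      exact ((hid j).comp (measurable_from_top (f := fun i : ℕ => (k + 1 : ℝ) * (i : ℝ) ^ 2))).measure_mem_eq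
        measurableSet_Ioi
    have h4 := measure_limsup_atTop_eq_zero h3.ne
    filter_upwards [measure_eq_zero_iff_ae_notMem.1 h4] with ω hω
    rw [Filter.limsup_eq_iInf_iSup_of_nat] at hω
    simp only [Set.iInf_eq_iInter, Set.iSup_eq_iUnion, Set.mem_iInter, Set.mem_iUnion,
      Set.mem_setOf_eq, Set.mem_Ioi, not_forall, not_exists, not_lt] at hω
    obtain ⟨N, hN⟩ := hω
    exact eventually_atTop.2 ⟨N, fun n hn => hN n hn⟩
  filter_upwards [ae_all_iff.2 key] with ω hω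
  rw [Metric.tendsto_atTop]
  intro ε hε
  obtain ⟨k, hk⟩ := exists_nat_gt (1 / ε)
  obtain ⟨N, hN⟩ := (hω k).exists_forall_of_atTop
  refine ⟨N + 1, fun n hn => ?_⟩
  have h1 := hN n (by omega)
  have hn0 : (0 : ℝ) < n := by
    have : 0 < n := by omega
    exact_mod_cast this
  rw [Real.dist_eq, sub_zero, abs_of_nonneg (by positivity), div_lt_iff₀ hn0]
  rw [div_lt_iff₀ hε] at hk
  have h2 : (0 : ℝ) ≤ (X n ω : ℝ) ^ 2 := by positivity
  have hk0 : (0 : ℝ) ≤ k := Nat.cast_nonneg k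
  by_contra hcon
  push Not at hcon
  have h3 : (k + 1 : ℝ) * (ε * n) ≤ n := (mul_le_mul_of_nonneg_left hcon (by positivity)).trans h1
  nlinarith

/-- **Random sequences**, of any dependence. -/
theorem random {Ω : Type} [MeasurableSpace Ω] (μ : Measure Ω) [IsProbabilityMeasure μ]
    (X : ℕ → Ω → ℕ) (hX : ∀ i, Measurable (X i))
    (hid : ∀ i, IdentDistrib (X i) (X 0) μ μ)
    (hint : Integrable (fun ω => (X 0 ω : ℝ) ^ 2) μ) :
    ∀ᵐ ω ∂μ, (∃ m : ℝ, 0 < m ∧ ∀ᶠ n : ℕ in atTop, m * n ≤ ∑ i ∈ range n, (X i ω : ℝ)) →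
      ∃ N : ℕ, ∀ n, N ≤ n → ∃ b : ℕ, (∀ i, i < n → X i ω ≤ b) ∧
      25000 * (b + 1) ^ 2 ≤ ∑ i ∈ range n, X i ω := by
  filter_upwards [sq_div μ X hX hid hint] with ω h2
  rintro ⟨m, hm, h1⟩
  obtain ⟨N, hN⟩ := eventually_large (fun i => (X i ω : ℝ)) m hm h1 h2
  refine ⟨N, fun n hn => ?_⟩
  obtain ⟨b, hb, hb2⟩ := hN n hn
  refine ⟨b, fun i hi => by exact_mod_cast hb i hi, ?_⟩
  exact_mod_cast hb2

/-- The means of pairwise independent variables. -/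
theorem means {Ω : Type} [MeasurableSpace Ω] (μ : Measure Ω) [IsProbabilityMeasure μ]
    (X : ℕ → Ω → ℕ) (hX : ∀ i, Measurable (X i))
    (hind : Pairwise fun i j => IndepFun (X i) (X j) μ)
    (hid : ∀ i, IdentDistrib (X i) (X 0) μ μ)
    (hint : Integrable (fun ω => (X 0 ω : ℝ) ^ 2) μ)
    (hne : ¬ ∀ᵐ ω ∂μ, X 0 ω = 0) :
    ∀ᵐ ω ∂μ, ∃ m : ℝ, 0 < m ∧ ∀ᶠ n : ℕ in atTop, m * n ≤ ∑ i ∈ range n, (X i ω : ℝ) := by
  have hm1 : Measurable (fun k : ℕ => (k : ℝ)) := measurable_from_top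
  have hint1 : Integrable (fun ω => (X 0 ω : ℝ)) μ := by
    refine Integrable.mono' (hint) ((hm1.comp (hX 0)).aestronglyMeasurable) ?_
    refine ae_of_all _ fun ω => ?_
    rw [Real.norm_eq_abs, abs_of_nonneg (Nat.cast_nonneg _)]
    have h1 : X 0 ω ≤ X 0 ω ^ 2 := Nat.le_self_pow (by norm_num) _
    exact_mod_cast h1
  have s1 := strong_law_ae_real (fun i ω => (X i ω : ℝ)) hint1
    (fun i j hij => (hind hij).comp hm1 hm1) (fun i => (hid i).comp hm1)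
  have hpos : 0 < ∫ ω, (X 0 ω : ℝ) ∂μ := by
    rw [lt_iff_le_and_ne]
    refine ⟨integral_nonneg fun ω => Nat.cast_nonneg _, fun h0 => hne ?_⟩
    have h1 := (integral_eq_zero_iff_of_nonneg (fun ω => Nat.cast_nonneg _) hint1).1 h0.symm
    filter_upwards [h1] with ω hω
    have h2 : (X 0 ω : ℝ) = 0 := hω
    exact_mod_cast h2
  filter_upwards [s1] with ω h1
  refine ⟨(∫ ω, (X 0 ω : ℝ) ∂μ) / 2, by positivity, ?_⟩
  filter_upwards [h1.eventually (lt_mem_nhds (show (∫ ω, (X 0 ω : ℝ) ∂μ) / 2 <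
    ∫ ω, (X 0 ω : ℝ) ∂μ by linarith)), eventually_gt_atTop 0] with n hn hn0
  have hn1 : (0 : ℝ) < n := by exact_mod_cast hn0
  rw [lt_div_iff₀ hn1] at hn
  exact hn.le

end Pool.Agent.Helper86.RM
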